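import Pool.Agent.helper81.DI.SpecC

/-!
# Project di (MP_baa4d7_al), module C7
-/

set_option autoImplicit false

namespace Pool.Agent.DI

open Pool.Agent.helper58.DC

open Classical in
/-- truncation to the centraliser -/
noncomputable def C7_tr {Γ : Type} [Group Γ] (P : Subgroup Γ) (z : Γ → ℂ) : Γ → ℂ :=
  fun x => if x ∈ cz P then z x else 0

theorem C7_tr_pos {Γ : Type} [Group Γ] {P : Subgroup Γ} {z : Γ → ℂ} {x : Γ} (h : x ∈ cz P) :
    C7_tr P z x = z x := by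
  unfold C7_tr
  exact if_pos h

theorem C7_tr_neg {Γ : Type} [Group Γ] {P : Subgroup Γ} {z : Γ → ℂ} {x : Γ} (h : x ∉ cz P) :
    C7_tr P z x = 0 := by
  unfold C7_tr
  exact if_neg h

theorem C7_conj_mem {Γ : Type} [Group Γ] {P : Subgroup Γ} {l : Γ} (hl : l ∈ nz P) {x : Γ}
    (hx : x ∈ cz P) : l * x * l⁻¹ ∈ cz P := by
  rw [Subgroup.mem_centralizer_iff] at hx ⊢
  intro h hh
  have hl' := Subgroup.mem_normalizer_iff.mp ((nz P).inv_mem hl)
  have h1 : l⁻¹ * h * l⁻¹⁻¹ ∈ P := (hl' h).mp hh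
  have h2 := hx _ h1
  rw [inv_inv] at h2
  have h3 : h * (l * x * l⁻¹) = l * ((l⁻¹ * h * l) * x) * l⁻¹ := by group
  rw [h3, h2]
  group

theorem C7_conj_iff {Γ : Type} [Group Γ] {P : Subgroup Γ} {l : Γ} (hl : l ∈ nz P) (x : Γ) :
    l * x * l⁻¹ ∈ cz P ↔ x ∈ cz P := by
  constructor
  · intro h
    have h1 := C7_conj_mem ((nz P).inv_mem hl) h
    have h2 : l⁻¹ * (l * x * l⁻¹) * l⁻¹⁻¹ = x := by group
    rwa [h2] at h1
  · exact C7_conj_mem hl

theorem C7_tr_inv {Γ : Type} [Group Γ] {P : Subgroup Γ} {z : Γ → ℂ} {l : Γ} (hl : l ∈ nz P)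
    (hz : ∀ x, z (l * x * l⁻¹) = z x) (x : Γ) : C7_tr P z (l * x * l⁻¹) = C7_tr P z x := by
  by_cases h : x ∈ cz P
  · rw [C7_tr_pos h, C7_tr_pos ((C7_conj_iff hl x).mpr h), hz]
  · rw [C7_tr_neg h, C7_tr_neg (fun h' => h ((C7_conj_iff hl x).mp h'))]

theorem C7_tr_int {Γ : Type} [Group Γ] {P : Subgroup Γ} {z : Γ → ℂ}
    (hz : ∀ x, IsIntegral ℤ (z x)) (x : Γ) : IsIntegral ℤ (C7_tr P z x) := by
  by_cases h : x ∈ cz P
  · rw [C7_tr_pos h]
    exact hz x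
  · rw [C7_tr_neg h]
    exact isIntegral_zero

theorem C7_cv_inv {Γ : Type} [Group Γ] (z w : Γ → ℂ) (l : Γ)
    (hz : ∀ x, z (l * x * l⁻¹) = z x) (hw : ∀ x, w (l * x * l⁻¹) = w x) (x : Γ) :
    cv z w (l * x * l⁻¹) = cv z w x := by
  unfold cv
  rw [← finsum_comp_equiv (MulAut.conj l).toEquiv]
  apply finsum_congr
  intro y
  have h1 : (MulAut.conj l).toEquiv y = l * y * l⁻¹ := rfl
  rw [h1, hz]
  have h2 : (l * y * l⁻¹)⁻¹ * (l * x * l⁻¹) = l * (y⁻¹ * x) * l⁻¹ := by group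
  rw [h2, hw]

theorem C7_cv_supp {Γ : Type} [Group Γ] (P : Subgroup Γ) (z w : Γ → ℂ) {x : Γ} (hx : x ∉ cz P) :
    cv (C7_tr P z) (C7_tr P w) x = 0 := by
  unfold cv
  have h : ∀ y, C7_tr P z y * C7_tr P w (y⁻¹ * x) = 0 := by
    intro y
    by_cases h1 : y ∈ cz P
    · have h2 : y⁻¹ * x ∉ cz P := by
        intro h2
        apply hx
        have h3 := (cz P).mul_mem h1 h2
        rwa [mul_inv_cancel_left] at h3
      rw [C7_tr_neg h2, mul_zero]
    · rw [C7_tr_neg h1, zero_mul]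
  simp only [h, finsum_zero]

theorem C7_cc_sub {Γ : Type} [Group Γ] [Finite Γ] (ψ z w : Γ → ℂ) :
    cc ψ (fun x => z x - w x) = cc ψ z - cc ψ w := by
  unfold cc
  rw [← sub_div, ← finsum_sub_distrib (Set.toFinite _) (Set.toFinite _)]
  congr 1
  apply finsum_congr
  intro x
  ring

theorem C7_cc_mul {Γ : Type} [Group Γ] [Finite Γ] (ψ z : Γ → ℂ) (c : ℂ) :
    cc ψ (fun x => c * z x) = c * cc ψ z := by
  unfold cc
  rw [← mul_div_assoc, mul_finsum]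
  congr 1
  apply finsum_congr
  intro x
  ring

theorem C7_mc {M : Ideal (integralClosure ℤ ℂ)} {a b : ℂ} (h : Mcong M (a - b) 0) :
    Mcong M a b := by
  obtain ⟨c, hc, hc'⟩ := h
  exact ⟨c, hc, by rw [← hc', sub_zero]⟩

theorem C7 (hB2 : B2_stmt) (hC1 : C1_stmt) (hC3 : C3_stmt) (hC4 : C4_stmt) (hC5a : C5a_stmt)
    (hC6 : C6_stmt) : C7_stmt := by
  intro Γ _ _ p _ M hM hpM P L hPL hLn hcL hP ψ hψ
  obtain ⟨c1refl, c1symm, c1trans, c1add, c1mul, c1prime, c1nat, c1inv, c1int, c1sum⟩ :=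
    hC1 p M hM hpM
  obtain ⟨c31, c32, c33, c34⟩ := hC3 Γ
  obtain ⟨c41, c42, c43⟩ := hC4 Γ
  have hinvL : ∀ v : Γ → ℂ, IsZO v → ∀ l ∈ L, ∀ x, v (l * x * l⁻¹) = v x :=
    fun v hv l _ x => hv.1 x l
  have hint : ∀ v : Γ → ℂ, IsZO v → IsIntegral ℤ (cc ψ v) :=
    fun v hv => c31 L ψ hψ v (hinvL v hv) hv.2
  have htrinv : ∀ v : Γ → ℂ, IsZO v → ∀ l ∈ L, ∀ x, C7_tr P v (l * x * l⁻¹) = C7_tr P v x :=
    fun v hv l hl x => C7_tr_inv (hLn hl) (hinvL v hv l hl) x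
  have htrint : ∀ v : Γ → ℂ, IsZO v → IsIntegral ℤ (cc ψ (C7_tr P v)) :=
    fun v hv => c31 L ψ hψ _ (htrinv v hv) (C7_tr_int hv.2)
  have hK : ∀ v : Γ → ℂ, IsZO v → Mcong M (cc ψ v) (cc ψ (C7_tr P v)) := by
    intro v hv
    apply C7_mc
    rw [← C7_cc_sub]
    apply hC5a Γ p M hM hpM P L hPL hLn hP ψ hψ
    · intro l hl x
      show v (l * x * l⁻¹) - C7_tr P v (l * x * l⁻¹) = v x - C7_tr P v x
      rw [hinvL v hv l hl x, htrinv v hv l hl x]
    · intro x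
      exact (hv.2 x).sub (C7_tr_int hv.2 x)
    · intro x hx
      show v x - C7_tr P v x = 0
      rw [C7_tr_pos hx, sub_self]
  refine ⟨?_, hint, ?_⟩
  · obtain ⟨n, hn, hn', _⟩ := ((hB2 Γ L).2 ψ hψ).1
    rw [hn']
    exact_mod_cast hn.ne'
  · intro z w hz hw
    have hV : IsZO (cv z w) := (c42 z w hz hw).1
    have hp0 : (p : ℂ) ≠ 0 := by
      exact_mod_cast (Fact.out : p.Prime).ne_zero
    have h1 := hK _ hV
    have h2 : Mcong M (cc ψ (C7_tr P (cv z w))) (cc ψ (cv (C7_tr P z) (C7_tr P w))) := by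
      apply C7_mc
      rw [← C7_cc_sub]
      have hcvinv : ∀ l ∈ L, ∀ x, cv (C7_tr P z) (C7_tr P w) (l * x * l⁻¹) =
          cv (C7_tr P z) (C7_tr P w) x :=
        fun l hl x => C7_cv_inv _ _ l (htrinv z hz l hl) (htrinv w hw l hl) x
      have ha : (fun x => C7_tr P (cv z w) x - cv (C7_tr P z) (C7_tr P w) x) =
          fun x => (p : ℂ) * ((C7_tr P (cv z w) x - cv (C7_tr P z) (C7_tr P w) x) / p) := by
        funext x
        field_simp
      rw [ha, C7_cc_mul ψ (fun x => (C7_tr P (cv z w) x - cv (C7_tr P z) (C7_tr P w) x) / p)]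
      have hai : IsIntegral ℤ
          (cc ψ (fun x => (C7_tr P (cv z w) x - cv (C7_tr P z) (C7_tr P w) x) / p)) := by
        apply c31 L ψ hψ
        · intro l hl x
          show (C7_tr P (cv z w) (l * x * l⁻¹) - cv (C7_tr P z) (C7_tr P w) (l * x * l⁻¹)) / p =
            (C7_tr P (cv z w) x - cv (C7_tr P z) (C7_tr P w) x) / p
          rw [htrinv _ hV l hl x, hcvinv l hl x]
        · intro x
          by_cases hx : x ∈ cz P
          · obtain ⟨a, ha1, ha2⟩ := hC6 Γ p P hP z w hz hw x hx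
            have ha3 : cv z w x = cv (C7_tr P z) (C7_tr P w) x + p * a := ha2
            show IsIntegral ℤ ((C7_tr P (cv z w) x - cv (C7_tr P z) (C7_tr P w) x) / p)
            rw [C7_tr_pos hx, ha3, add_sub_cancel_left, mul_div_cancel_left₀ _ hp0]
            exact ha1
          · show IsIntegral ℤ ((C7_tr P (cv z w) x - cv (C7_tr P z) (C7_tr P w) x) / p)
            rw [C7_tr_neg hx, C7_cv_supp P z w hx, sub_zero, zero_div]
            exact isIntegral_zero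
      have h3 := c1mul _ _ _ hai ((c1nat p).mpr dvd_rfl)
      rw [mul_zero, mul_comm] at h3
      exact h3
    have h3 : cc ψ (cv (C7_tr P z) (C7_tr P w)) = cc ψ (C7_tr P z) * cc ψ (C7_tr P w) :=
      c41 L ψ hψ _ _ (htrinv z hz) (fun x hx => C7_tr_neg (fun h => hx (hcL h)))
        (fun x hx => C7_tr_neg (fun h => hx (hcL h)))
    rw [h3] at h2
    have h4 : Mcong M (cc ψ (C7_tr P z) * cc ψ (C7_tr P w)) (cc ψ (C7_tr P z) * cc ψ w) :=
      c1mul _ _ _ (htrint z hz) (c1symm _ _ (hK w hw))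
    have h5 : Mcong M (cc ψ (C7_tr P z) * cc ψ w) (cc ψ z * cc ψ w) := by
      rw [mul_comm (cc ψ (C7_tr P z)), mul_comm (cc ψ z)]
      exact c1mul _ _ _ (hint w hw) (c1symm _ _ (hK z hz))
    exact c1trans _ _ _ h1 (c1trans _ _ _ h2 (c1trans _ _ _ h4 h5))

end Pool.Agent.DI
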