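import Pool.Agent.helper81.DI.SpecD

/-! # di:D3. The function `gfun` for an embedded extension -/

set_option autoImplicit false

namespace Pool.Agent.DI

open Pool.Agent.helper58.DC

theorem D3_card {α : Type} (s : Finset α) (P : α → Prop) (H : ∀ x, x ∈ s ↔ P x) :
    Nat.card {x // P x} = s.card := by
  have e : {x // P x} ≃ {x // x ∈ s} := Equiv.subtypeEquivRight fun x => (H x).symm
  rw [Nat.card_congr e, Nat.card_eq_fintype_card, Fintype.card_coe]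

theorem D3 (hB2 : B2_stmt) (hB12 : B12_stmt) (hB13 : B13_stmt) (hD2 : D2_stmt) : D3_stmt := by
  classical
  intro K E A Γ _ _ _ _ _ _ _ Y G' M' q ε p _ M hcyc τ d C hC hne
  obtain ⟨h1, h2⟩ := hD2 K E A Γ Y G' M' q ε C hC hne
  have hA : Finite A := Finite.of_surjective Y.proj Y.proj_surjective
  rw [hB12 Γ p M G' (M' ⊓ nrm (cmap ε.i C)) hcyc τ d, h1]
  set N : Subgroup Γ := M' ⊓ nrm (cmap ε.i C) with hN
  have hcard : Nat.card ((nrm C).map ε.i : Subgroup Γ) = Nat.card (nrm C) :=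
    Nat.card_congr ((nrm C).equivMapOfInjective ε.i ε.i_inj).symm.toEquiv
  rw [hcard]
  congr 1
  obtain ⟨-, b2, b3, b4, b5, -⟩ := hB13 K Γ p ε.i ε.i_inj (nrm C)
  set u : (K → ℂ) → Subgroup A := fun ψ => (Y.stab C ψ).map Y.proj with hu
  set S2 : Set (K → ℂ) := {ψ | ψ ∈ IrrOn (nrm C) ∧
    Defect p (nrm C) ψ (d - padicValNat p (q * Nat.card (u ψ))) ∧ Cov M G' τ (ext0 ε.i ψ)}
    with hS2
  have hS1 : {ψ : Γ → ℂ | ψ ∈ IrrOn ((nrm C).map ε.i) ∧ Cov M G' τ ψ ∧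
      Defect p ((nrm C).map ε.i) ψ (d - padicValNat p (rr G' N ψ))} = ext0 ε.i '' S2 := by
    ext φ
    constructor
    · rintro ⟨g1, g2, g3⟩
      obtain ⟨ψ, rfl⟩ := b3 φ g1
      have g4 : ψ ∈ IrrOn (nrm C) := (b2 ψ).mpr g1
      rw [h2 ψ g4, ← b5] at g3
      exact ⟨ψ, ⟨g4, g3, g2⟩, rfl⟩
    · rintro ⟨ψ, ⟨g1, g2, g3⟩, rfl⟩
      refine ⟨(b2 ψ).mp g1, g3, ?_⟩
      rw [h2 ψ g1, ← b5]
      exact g2
  rw [hS1, finsum_mem_image fun a _ b _ h => b4 a b h]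
  have hfin : S2.Finite := (hB2 K (nrm C)).1.subset fun ψ h => h.1
  have e1 : ∑ᶠ ψ ∈ S2, (rr G' N (ext0 ε.i ψ) : ℤ) ^ 2 =
      ∑ ψ ∈ hfin.toFinset, ((q * Nat.card (u ψ) : ℕ) : ℤ) ^ 2 := by
    rw [finsum_mem_eq_finite_toFinset_sum _ hfin]
    refine Finset.sum_congr rfl fun ψ hψ => ?_
    rw [h2 ψ ((hfin.mem_toFinset.mp hψ).1)]
  rw [e1]
  have : Fintype (Subgroup A) := Fintype.ofFinite _
  rw [finsum_eq_sum_of_fintype, ← Finset.sum_fiberwise hfin.toFinset u]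
  refine Finset.sum_congr rfl fun U _ => ?_
  rw [D3_card (hfin.toFinset.filter fun ψ => u ψ = U)]
  · rw [Finset.sum_congr rfl (g := fun _ => ((q * Nat.card U : ℕ) : ℤ) ^ 2)]
    · rw [Finset.sum_const, nsmul_eq_mul, mul_comm]
    · intro ψ hψ
      rw [(Finset.mem_filter.mp hψ).2]
  · intro ψ
    rw [Finset.mem_filter, Set.Finite.mem_toFinset]
    constructor
    · rintro ⟨⟨g1, g2, g3⟩, g4⟩
      rw [g4] at g2
      exact ⟨g1, g2, g3, g4⟩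
    · rintro ⟨g1, g2, g3, g4⟩
      have g5 : u ψ = U := g4
      refine ⟨⟨g1, ?_, g3⟩, g5⟩
      rw [g5]
      exact g2

end Pool.Agent.DI
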